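import Mathlib

set_option autoImplicit false

namespace Pool.Agent.Results.MP_311bfa_al.Counter

open Filter Topology Pointwise

abbrev Mat (n : ℕ) : Type := Matrix (Fin n) (Fin n) ℚ

/-- integral matrices -/
def IM (n : ℕ) : Subring (Mat n) := (Int.castRingHom ℚ).mapMatrix.range

theorem rank_add {n : ℕ} (A B : Mat n) : (A + B).rank ≤ A.rank + B.rank := by
  unfold Matrix.rank
  rw [Matrix.mulVecLin_add]
  exact (Submodule.finrank_mono (LinearMap.range_add_le _ _)).trans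
    (Submodule.finrank_add_le_finrank_add_finrank _ _)

theorem rank_neg {n : ℕ} (A : Mat n) : (-A).rank ≤ A.rank := by
  rw [← mul_neg_one]
  exact Matrix.rank_mul_le_left _ _

theorem pow_smul_mem {n : ℕ} {A : Mat n} (h : A ∈ IM n) (c : ℕ) : (2 : ℚ) ^ c • A ∈ IM n := by
  have : (2 : ℚ) ^ c • A = (2 ^ c : ℕ) • A := by
    rw [← Nat.cast_smul_eq_nsmul ℚ]
    norm_num
  rw [this]
  exact nsmul_mem h _

theorem up {n : ℕ} {A : Mat n} {c d : ℕ} (h : (2 : ℚ) ^ c • A ∈ IM n) (hcd : c ≤ d) :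
    (2 : ℚ) ^ d • A ∈ IM n := by
  obtain ⟨e, rfl⟩ := Nat.exists_eq_add_of_le' hcd
  rw [pow_add, mul_smul]
  exact pow_smul_mem h e

/-- sequences of matrices with bounded dyadic denominators -/
def SR : Subring (∀ n, Mat n) where
  carrier := {z | ∃ c : ℕ, ∀ n, (2 : ℚ) ^ c • z n ∈ IM n}
  mul_mem' := by
    rintro a b ⟨c, hc⟩ ⟨d, hd⟩
    refine ⟨c + d, fun n => ?_⟩
    have := mul_mem (hc n) (hd n)
    rwa [smul_mul_smul_comm, ← pow_add] at this
  one_mem' := ⟨0, fun n => by simpa using one_mem (IM n)⟩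
  add_mem' := by
    rintro a b ⟨c, hc⟩ ⟨d, hd⟩
    refine ⟨c + d, fun n => ?_⟩
    rw [Pi.add_apply, smul_add]
    exact add_mem (up (hc n) (by omega)) (up (hd n) (by omega))
  zero_mem' := ⟨0, fun n => by simpa using zero_mem (IM n)⟩
  neg_mem' := by
    rintro a ⟨c, hc⟩
    refine ⟨c, fun n => ?_⟩
    rw [Pi.neg_apply, smul_neg]
    exact neg_mem (hc n)

def R0 : Type := SR

instance : Ring R0 := inferInstanceAs (Ring SR)

def co (x : R0) (n : ℕ) : Mat n := x.1 n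

theorem co_add (x y : R0) (n : ℕ) : co (x + y) n = co x n + co y n := rfl
theorem co_mul (x y : R0) (n : ℕ) : co (x * y) n = co x n * co y n := rfl
theorem co_neg (x : R0) (n : ℕ) : co (-x) n = - co x n := rfl
theorem co_one (n : ℕ) : co 1 n = 1 := rfl
theorem co_zero (n : ℕ) : co 0 n = 0 := rfl
theorem co_bdd (x : R0) : ∃ c : ℕ, ∀ n, (2 : ℚ) ^ c • co x n ∈ IM n := x.2
theorem co_ext {x y : R0} (h : ∀ n, co x n = co y n) : x = y := Subtype.ext (funext h)

def coHom (n : ℕ) : R0 →+ Mat n where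
  toFun x := co x n
  map_zero' := rfl
  map_add' _ _ := rfl

/-- small rank plus dyadically small -/
def Sm (j : ℕ) {n : ℕ} (A : Mat n) : Prop :=
  ∃ s t : Mat n, t ∈ IM n ∧ A = s + (2 : ℚ) ^ j • t ∧ j * s.rank ≤ n

def N (j : ℕ) : Set R0 := {x | ∀ᶠ n in atTop, Sm j (co x n)}

theorem Sm.mono {i j n : ℕ} {A : Mat n} (h : Sm j A) (hij : i ≤ j) : Sm i A := by
  obtain ⟨s, t, ht, rfl, hs⟩ := h
  obtain ⟨e, rfl⟩ := Nat.exists_eq_add_of_le hij
  refine ⟨s, (2 : ℚ) ^ e • t, pow_smul_mem ht e, by rw [pow_add, mul_smul], ?_⟩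
  exact le_trans (Nat.mul_le_mul_right _ hij) hs

theorem N_mono {i j : ℕ} (hij : i ≤ j) : N j ⊆ N i :=
  fun _ hx => Eventually.mono hx fun _ h => h.mono hij

@[reducible] def basis : RingFilterBasis R0 where
  sets := {U | ∃ j, U = N j}
  nonempty := ⟨_, 0, rfl⟩
  inter_sets := by
    rintro _ _ ⟨i, rfl⟩ ⟨j, rfl⟩
    exact ⟨_, ⟨max i j, rfl⟩, Set.subset_inter (N_mono (le_max_left _ _)) (N_mono (le_max_right _ _))⟩
  zero' := by
    rintro _ ⟨j, rfl⟩
    exact Eventually.of_forall fun n => ⟨0, 0, zero_mem _, by simp [co_zero], by simp⟩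
  add' := by
    rintro _ ⟨j, rfl⟩
    refine ⟨_, ⟨2 * j, rfl⟩, ?_⟩
    rintro _ ⟨a, ha, b, hb, rfl⟩
    refine (Eventually.and ha hb).mono fun n h => ?_
    obtain ⟨⟨s, t, ht, h1, hs⟩, ⟨s', t', ht', h1', hs'⟩⟩ := h
    refine ⟨s + s', (2 : ℚ) ^ j • (t + t'), pow_smul_mem (add_mem ht ht') j, ?_, ?_⟩
    · rw [co_add, h1, h1', smul_smul, ← pow_add, ← two_mul, smul_add]
      abel
    · have := Nat.mul_le_mul_left j (rank_add s s')
      nlinarith
  neg' := by
    rintro _ ⟨j, rfl⟩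
    refine ⟨_, ⟨j, rfl⟩, fun a ha => Eventually.mono ha fun n h => ?_⟩
    obtain ⟨s, t, ht, h1, hs⟩ := h
    refine ⟨-s, -t, neg_mem ht, ?_, (Nat.mul_le_mul_left j (rank_neg s)).trans hs⟩
    rw [co_neg, h1, smul_neg, neg_add]
  conj' := by
    rintro x _ ⟨j, rfl⟩
    exact ⟨_, ⟨j, rfl⟩, fun a ha => by simpa using ha⟩
  mul' := by
    rintro _ ⟨j, rfl⟩
    refine ⟨_, ⟨2 * j, rfl⟩, ?_⟩
    rintro _ ⟨a, ha, b, hb, rfl⟩
    refine (Eventually.and ha hb).mono fun n h => ?_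
    obtain ⟨⟨s, t, ht, h1, hs⟩, ⟨s', t', ht', h1', hs'⟩⟩ := h
    refine ⟨s * co b n + ((2 : ℚ) ^ (2 * j) • t) * s', (2 : ℚ) ^ (3 * j) • (t * t'),
      pow_smul_mem (mul_mem ht ht') _, ?_, ?_⟩
    · rw [co_mul, h1, add_mul, add_assoc]
      congr 1
      rw [h1', mul_add, smul_mul_smul_comm, smul_smul, ← pow_add, ← pow_add]
      congr 3
      ring
    · have h2 := rank_add (s * co b n) (((2 : ℚ) ^ (2 * j) • t) * s')
      have h3 := Matrix.rank_mul_le_left s (co b n)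
      have h4 := Matrix.rank_mul_le_right ((2 : ℚ) ^ (2 * j) • t) s'
      have := Nat.mul_le_mul_left j (h2.trans (add_le_add h3 h4))
      nlinarith
  mul_left' := by
    rintro x _ ⟨j, rfl⟩
    obtain ⟨c, hc⟩ := co_bdd x
    refine ⟨_, ⟨j + c, rfl⟩, fun a ha => Eventually.mono ha fun n h => ?_⟩
    obtain ⟨s, t, ht, h1, hs⟩ := h
    refine ⟨co x n * s, ((2 : ℚ) ^ c • co x n) * t, mul_mem (hc n) ht, ?_, ?_⟩
    · rw [co_mul, h1, mul_add, smul_mul_assoc, smul_smul, ← pow_add, mul_smul_comm]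
    · have := Nat.mul_le_mul (Nat.le_add_right j c) (Matrix.rank_mul_le_right (co x n) s)
      omega
  mul_right' := by
    rintro x _ ⟨j, rfl⟩
    obtain ⟨c, hc⟩ := co_bdd x
    refine ⟨_, ⟨j + c, rfl⟩, fun a ha => Eventually.mono ha fun n h => ?_⟩
    obtain ⟨s, t, ht, h1, hs⟩ := h
    refine ⟨s * co x n, t * ((2 : ℚ) ^ c • co x n), mul_mem ht (hc n), ?_, ?_⟩
    · rw [co_mul, h1, add_mul, mul_smul_comm, smul_smul, ← pow_add, smul_mul_assoc]
    · have := Nat.mul_le_mul (Nat.le_add_right j c) (Matrix.rank_mul_le_left s (co x n))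
      omega

instance : TopologicalSpace R0 := basis.topology

instance : IsTopologicalRing R0 := basis.isTopologicalRing

theorem mem_nhds_iff' (U : Set R0) : U ∈ 𝓝 (0 : R0) ↔ ∃ j, N j ⊆ U := by
  rw [basis.toAddGroupFilterBasis.nhds_zero_hasBasis.mem_iff]
  constructor
  · rintro ⟨_, ⟨j, rfl⟩, h⟩
    exact ⟨j, h⟩
  · rintro ⟨j, h⟩
    exact ⟨_, ⟨j, rfl⟩, h⟩

theorem one_not_mem : (1 : R0) ∉ N 2 := by
  intro h
  obtain ⟨n, ⟨s, t, ⟨T, rfl⟩, h1, hs⟩, hn⟩ := (Eventually.and h (eventually_ge_atTop 1)).exists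
  rw [co_one] at h1
  have h2 : s = (Int.castRingHom ℚ).mapMatrix (1 - 4 • T) := by
    rw [map_sub, map_one, map_nsmul, h1, ← Nat.cast_smul_eq_nsmul ℚ]
    norm_num
  have h3 : (1 - 4 • T).det ≠ 0 := by
    intro h0
    have h4 := (Int.castRingHom (ZMod 2)).map_det (1 - 4 • T)
    rw [h0, map_zero, map_sub, map_one, map_nsmul, ← Nat.cast_smul_eq_nsmul (ZMod 2)] at h4
    have h5 : ((4 : ℕ) : ZMod 2) = 0 := by decide
    rw [h5, zero_smul, sub_zero, Matrix.det_one] at h4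
    exact zero_ne_one h4
  have h6 : s.det ≠ 0 := by
    rw [h2, ← RingHom.map_det]
    simpa using h3
  rw [Matrix.rank_of_det_ne_zero h6, Fintype.card_fin] at hs
  omega

/-- shift matrices -/
def vm (n q i : ℕ) : Mat n := Matrix.of fun a c => if (a : ℕ) = c + i * q then 1 else 0

/-- projection on the first coordinates -/
def pm (n q : ℕ) : Mat n := Matrix.diagonal fun c => if (c : ℕ) < q then 1 else 0

theorem vm_mem (n q i : ℕ) : vm n q i ∈ IM n :=
  ⟨Matrix.of fun a c => if (a : ℕ) = c + i * q then 1 else 0, by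
    ext a c
    simp [vm]⟩

theorem vmT_mem (n q i : ℕ) : (vm n q i).transpose ∈ IM n :=
  ⟨Matrix.of fun c a => if (a : ℕ) = c + i * q then 1 else 0, by
    ext a c
    simp [vm]⟩

theorem pm_mem (n q : ℕ) : pm n q ∈ IM n :=
  ⟨Matrix.diagonal fun c => if (c : ℕ) < q then 1 else 0, by
    ext a c
    simp only [pm, RingHom.mapMatrix_apply, Matrix.map_apply, Matrix.diagonal_apply]
    split_ifs <;> simp⟩

theorem pm_rank (n q : ℕ) : (pm n q).rank ≤ q := by
  rw [pm, Matrix.rank_diagonal]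
  refine le_trans (Fintype.card_le_of_injective (β := Fin q)
    (fun c => ⟨c.1, by
      have := c.2
      by_contra h
      simp [h] at this⟩) ?_) (by simp)
  intro a b h
  exact Subtype.ext (Fin.ext (by simpa using h))

theorem vpv (n q i : ℕ) (hq : 0 < q) : vm n q i * pm n q * (vm n q i).transpose
    = Matrix.diagonal fun a : Fin n => if (a : ℕ) / q = i then 1 else 0 := by
  ext a b
  rw [Matrix.mul_apply]
  simp only [pm, Matrix.mul_diagonal, vm, Matrix.of_apply, Matrix.transpose_apply,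
    Matrix.diagonal_apply]
  have key : ∀ c : ℕ, c < q → (a : ℕ) = c + i * q → (a : ℕ) / q = i ∧ c = a % q := by
    intro c hc h
    rw [h, Nat.add_mul_div_right _ _ hq, Nat.div_eq_of_lt hc, Nat.add_mul_mod_self_right,
      Nat.mod_eq_of_lt hc]
    simp
  rw [Finset.sum_eq_single (⟨a % q, lt_of_le_of_lt (Nat.mod_le _ _) a.2⟩ : Fin n)]
  · have h1 : (a : ℕ) % q < q := Nat.mod_lt _ hq
    have h2 := Nat.mod_add_div' a q
    simp only [h1, if_true, mul_one]
    by_cases h3 : (a : ℕ) / q = i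
    · subst h3
      rw [h2]
      simp [Fin.ext_iff, eq_comm]
    · have : ¬ (a : ℕ) = a % q + i * q := fun h => h3 (key _ h1 h).1
      simp [this, h3]
  · intro c _ hc
    by_cases h1 : (a : ℕ) = c + i * q
    · by_cases h2 : (c : ℕ) < q
      · exact absurd (Fin.ext (key c h2 h1).2) hc
      · simp [h2]
    · simp [h1]
  · simp

theorem sum_vpv (n m : ℕ) (hm : 0 < m) :
    ∑ i ∈ Finset.range m, vm n (n / m + 1) i * pm n (n / m + 1) * (vm n (n / m + 1) i).transpose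
      = 1 := by
  ext a b
  rw [Matrix.sum_apply]
  simp only [vpv _ _ _ (Nat.succ_pos _), Matrix.diagonal_apply, Matrix.one_apply]
  split_ifs with h
  · rw [Finset.sum_ite_eq, if_pos]
    rw [Finset.mem_range, Nat.div_lt_iff_lt_mul (Nat.succ_pos _)]
    have := Nat.lt_mul_div_succ n hm
    have := a.2
    simp only [Nat.succ_eq_add_one]
    omega
  · simp

/-- build an element of the ring -/
def mk' (z : ∀ n, Mat n) (c : ℕ) (h : ∀ n, (2 : ℚ) ^ c • z n ∈ IM n) : R0 := ⟨z, c, h⟩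

theorem star (U : Set R0) (hU : U ∈ 𝓝 (0 : R0)) : ∃ m : ℕ, ∀ V ∈ 𝓝 (0 : R0), ∃ a ∈ U,
    ∃ x y : ℕ → R0, (∀ i, x i ∈ V ∧ y i ∈ V) ∧ ∑ i ∈ Finset.range m, x i * a * y i = 1 := by
  obtain ⟨k, hk⟩ := (mem_nhds_iff' U).1 hU
  refine ⟨2 * k + 1, fun V hV => ?_⟩
  obtain ⟨j, hj⟩ := (mem_nhds_iff' V).1 hV
  have h2 : (2 : ℚ) ^ (2 * j) ≠ 0 := by positivity
  refine ⟨mk' (fun n => ((2 : ℚ) ^ (2 * j))⁻¹ • pm n (n / (2 * k + 1) + 1)) (2 * j) fun n => ?_,
    hk ?_,
    fun i => mk' (fun n => (2 : ℚ) ^ j • vm n (n / (2 * k + 1) + 1) i) 0 fun n => ?_,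
    fun i => mk' (fun n => (2 : ℚ) ^ j • (vm n (n / (2 * k + 1) + 1) i).transpose) 0 fun n => ?_,
    fun i => ⟨hj ?_, hj ?_⟩, ?_⟩
  · rw [smul_smul, mul_inv_cancel₀ h2, one_smul]
    exact pm_mem _ _
  · refine (eventually_ge_atTop (2 * k)).mono fun n hn => ⟨_, 0, zero_mem _, (by simp; rfl), ?_⟩
    change k * (((2 : ℚ) ^ (2 * j))⁻¹ • pm n (n / (2 * k + 1) + 1)).rank ≤ n
    rw [Matrix.rank_smul_of_mem_nonZeroDivisors _ (mem_nonZeroDivisors_of_ne_zero (inv_ne_zero h2))]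
    have h3 := Nat.mul_le_mul_left k (pm_rank n (n / (2 * k + 1) + 1))
    have h4 := Nat.mul_div_le n (2 * k + 1)
    nlinarith [Nat.zero_le (n / (2 * k + 1))]
  · exact pow_smul_mem (pow_smul_mem (vm_mem _ _ _) _) _
  · exact pow_smul_mem (pow_smul_mem (vmT_mem _ _ _) _) _
  · exact Eventually.of_forall fun n => ⟨0, _, vm_mem _ _ _, (zero_add _).symm, by simp⟩
  · exact Eventually.of_forall fun n => ⟨0, _, vmT_mem _ _ _, (zero_add _).symm, by simp⟩
  · refine co_ext fun n => ?_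
    refine (map_sum (coHom n) _ _).trans ?_
    rw [co_one, ← sum_vpv n (2 * k + 1) (by omega)]
    refine Finset.sum_congr rfl fun i _ => ?_
    change ((2 : ℚ) ^ j • vm n _ i) * (((2 : ℚ) ^ (2 * j))⁻¹ • pm n _) *
      ((2 : ℚ) ^ j • (vm n _ i).transpose) = _
    rw [smul_mul_smul_comm, smul_mul_smul_comm]
    have : (2 : ℚ) ^ j * ((2 : ℚ) ^ (2 * j))⁻¹ * 2 ^ j = 1 := by
      field_simp
      ring
    rw [this, one_smul]

theorem kill {S : Type} [Ring S] [TopologicalSpace S] [IsTopologicalRing S] [T2Space S]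
    (ι : R0 →+* S) (hι : Continuous ι) (f f' : ℕ → S) (e : S)
    (hf : ∀ i x, f i * ι x = ι x * f i) (hff : ∀ i j, f i * f' j = if i = j then e else 0) :
    e = 0 := by
  by_contra he
  have h0 : ({e}ᶜ : Set S) ∈ 𝓝 ((0 : S) * 0 * 0) := by
    rw [mul_zero]
    exact isOpen_compl_singleton.mem_nhds (fun h => he (Set.mem_singleton_iff.1 h).symm)
  have hc : ContinuousAt (fun p : S × S × S => p.1 * p.2.1 * p.2.2) (0, 0, 0) := by fun_prop
  have h1 := hc h0
  rw [mem_map, nhds_prod_eq, nhds_prod_eq, mem_prod_iff] at h1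
  obtain ⟨A, hA, BC, hBC, hsub⟩ := h1
  obtain ⟨B, hB, C, hC, hsub'⟩ := mem_prod_iff.1 hBC
  have hB' : ι ⁻¹' B ∈ 𝓝 (0 : R0) := hι.continuousAt (by rwa [map_zero])
  obtain ⟨m, hm⟩ := star _ hB'
  have small : ∀ (g : ℕ → S) (D : Set S), D ∈ 𝓝 (0 : S) → ∃ V ∈ 𝓝 (0 : R0), ∀ x : ℕ → R0,
      (∀ i, x i ∈ V) → ∑ i ∈ Finset.range m, ι (x i) * g i ∈ D := by
    intro g D hD
    have hc2 : Continuous fun x : ℕ → R0 => ∑ i ∈ Finset.range m, ι (x i) * g i :=
      continuous_finset_sum _ fun i _ => (hι.comp (continuous_apply i)).mul continuous_const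
    have h3 := hc2.continuousAt (x := 0) (show D ∈ _ by simpa using hD)
    rw [mem_map, nhds_pi, Filter.mem_pi] at h3
    obtain ⟨J, hJ, t, ht, h4⟩ := h3
    exact ⟨⋂ i ∈ J, t i, (biInter_mem hJ).2 fun i _ => ht i,
      fun x hx => h4 fun i hi => Set.mem_iInter₂.1 (hx i) i hi⟩
  obtain ⟨V, hV, hV'⟩ := small f A hA
  obtain ⟨W, hW, hW'⟩ := small f' C hC
  obtain ⟨a, ha, x, y, hxy, hsum⟩ := hm _ (inter_mem hV hW)
  have h5 := hsub (Set.mk_mem_prod (hV' x fun i => (hxy i).1.1)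
    (hsub' (Set.mk_mem_prod ha (hW' y fun i => (hxy i).2.2))))
  apply h5
  change (∑ i ∈ Finset.range m, ι (x i) * f i) * ι a * (∑ i ∈ Finset.range m, ι (y i) * f' i) = e
  rw [Finset.sum_mul, Finset.sum_mul_sum]
  have h6 : ∀ i ∈ Finset.range m, ∑ j ∈ Finset.range m, ι (x i) * f i * ι a * (ι (y j) * f' j)
      = ι (x i * a * y i) * e := by
    intro i hi
    have : ∀ j, ι (x i) * f i * ι a * (ι (y j) * f' j) = ι (x i * a * y j) * (f i * f' j) := by
      intro j
      rw [mul_assoc (ι (x i)), hf, map_mul, map_mul]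
      simp only [mul_assoc]
      rw [← mul_assoc (f i), hf, mul_assoc]
    simp only [this, hff, mul_ite, mul_zero]
    rw [Finset.sum_ite_eq, if_pos hi]
  rw [Finset.sum_congr rfl h6, ← Finset.sum_mul, ← map_sum, hsum, map_one, one_mul]

abbrev RR : Type := SeparationQuotient R0

abbrev GG : Type := Function.End (Option ℕ)

/-- matrix units as maps -/
def eu (i j : ℕ) : GG := fun x => if x = some j then some i else none

def th : GG := fun _ => none

theorem eu_th (i j : ℕ) : eu i j * th = th := by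
  funext x
  change eu i j (th x) = th x
  simp [eu, th]

theorem th_mul (g : GG) : th * g = th := rfl

theorem eu_eu (i j : ℕ) : eu 0 i * eu j 0 = if i = j then eu 0 0 else th := by
  funext x
  change eu 0 i (eu j 0 x) = _
  by_cases h : i = j
  · subst h
    by_cases hx : x = some 0 <;> simp [eu, hx]
  · by_cases hx : x = some 0 <;> simp [eu, th, hx, h, Ne.symm h]

theorem result : ∃ (R : Type) (_ : Ring R) (τ₀ : TopologicalSpace R),
    IsTopologicalRing R ∧ T2Space R ∧ ∃ (G : Type) (_ : Monoid G),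
      ¬ ∃ τ : TopologicalSpace (MonoidAlgebra R G),
        @IsTopologicalRing (MonoidAlgebra R G) τ _ ∧ @T2Space (MonoidAlgebra R G) τ ∧
        TopologicalSpace.induced (fun r : R => MonoidAlgebra.single (1 : G) r) τ = τ₀ := by
  refine ⟨RR, inferInstance, inferInstance, inferInstance, inferInstance, GG, inferInstance, ?_⟩
  rintro ⟨τ, h1, h2, h3⟩
  have hc : Continuous fun r : RR => MonoidAlgebra.single (1 : GG) r :=
    continuous_iff_le_induced.2 h3.ge
  have key := kill (S := MonoidAlgebra RR GG)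
    (MonoidAlgebra.singleOneRingHom.comp SeparationQuotient.mkRingHom)
    (hc.comp SeparationQuotient.continuous_mk)
    (fun i => MonoidAlgebra.single (eu 0 i) 1 - MonoidAlgebra.single th 1)
    (fun j => MonoidAlgebra.single (eu j 0) 1 - MonoidAlgebra.single th 1)
    (MonoidAlgebra.single (eu 0 0) 1 - MonoidAlgebra.single th 1)
    (fun i x => by
      change _ * MonoidAlgebra.single 1 _ = MonoidAlgebra.single 1 _ * _
      simp only [sub_mul, mul_sub, MonoidAlgebra.single_mul_single, mul_one, one_mul])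
    (fun i j => by
      simp only [sub_mul, mul_sub, MonoidAlgebra.single_mul_single, mul_one, eu_th, th_mul, eu_eu]
      split_ifs <;> simp)
  rw [sub_eq_zero] at key
  have hne : eu 0 0 ≠ th := fun h => by simpa [eu, th] using congrFun h (some 0)
  have h4 := congrArg (fun z : MonoidAlgebra RR GG => z.coeff (eu 0 0)) key
  simp only [MonoidAlgebra.coeff_single, Finsupp.single_eq_same, Finsupp.single_eq_of_ne hne] at h4
  have h5 : Inseparable (1 : R0) 0 := SeparationQuotient.mk_eq_mk.1 h4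
  apply one_not_mem
  apply mem_of_mem_nhds
  rw [h5.nhds_eq]
  exact (mem_nhds_iff' _).2 ⟨2, subset_rfl⟩

end Pool.Agent.Results.MP_311bfa_al.Counter
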